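import Pool.Agent.Helper37.DG.Stmts2

set_option autoImplicit false

/-!
MAIND: values of the form on the differences of a subset of a box.
-/

namespace Pool.Agent.Helper37.DG

open Finset
open scoped Classical

theorem maind_card_box (N M : ℕ) : (box N M).card = N * M := by
  simp [Pool.Agent.Helper37.DG.box, Finset.card_product, Int.card_Ico]

theorem maind_dc_pos (D : ℕ) (P : Finset (ℤ × ℤ)) (h : 2 ≤ P.card) : 1 ≤ dcD D P := by
  obtain ⟨a, ha, b, hb, hab⟩ := Finset.one_lt_card.1 (show 1 < P.card by omega)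
  unfold dcD
  refine Finset.card_pos.2 ⟨nmD D (a - b), ?_⟩
  refine Finset.mem_image.2 ⟨(a, b), ?_, rfl⟩
  rw [Finset.mem_offDiag]
  exact ⟨ha, hb, hab⟩

/-- a root estimate -/
theorem maind_rpow_quarter {D N : ℕ} (h : (6 * D) ^ 4 ≤ N) :
    (6 * D : ℝ) ≤ (N : ℝ) ^ (1 / 4 : ℝ) := by
  have h0 : (6 * D : ℝ) = ((6 * D : ℝ) ^ (4 : ℕ)) ^ (1 / 4 : ℝ) := by
    rw [← Real.rpow_natCast, ← Real.rpow_mul (by positivity)]
    norm_num
  rw [h0]
  apply Real.rpow_le_rpow (by positivity) _ (by norm_num)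
  exact_mod_cast h

theorem maind_sq_le {N M : ℕ} (h : M ^ 4 ≤ N) : ((M : ℝ)) ^ 2 ≤ (N : ℝ) ^ (1 / 2 : ℝ) := by
  have h1 : ((M : ℝ)) ^ 2 = (((M : ℝ)) ^ 4) ^ (1 / 2 : ℝ) := by
    have : ((M : ℝ)) ^ 4 = (((M : ℝ)) ^ 2) ^ 2 := by ring
    rw [this, ← Real.sqrt_eq_rpow, Real.sqrt_sq (by positivity)]
  rw [h1]
  apply Real.rpow_le_rpow (by positivity) _ (by norm_num)
  exact_mod_cast h

theorem st_MAIND (hREG : ST_REGD) (hTHIN : ST_THIND) (hTRIV : ST_TRIVD) : ST_MAIND := by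
  intro D hD ε hε
  obtain ⟨c, c₀, N₀, hc, hc₀, hreg⟩ := hREG D hD ε hε
  set c₁ : ℝ := min c₀ (1 / 4) with hc₁
  have hc₁0 : 0 < c₁ := lt_min hc₀ (by norm_num)
  obtain ⟨C, hC, htriv⟩ := hTRIV D hD (c₁ * ε) (mul_pos hc₁0 hε)
  set N₁ : ℕ := max N₀ ((6 * D) ^ 4) with hN₁
  set s : ℝ := Real.sqrt (Real.log 2) with hs
  have hs0 : 0 < s := Real.sqrt_pos.2 (Real.log_pos (by norm_num))
  have hN₁1 : (1 : ℝ) ≤ N₁ := by
    have : 1 ≤ N₁ := le_trans (Nat.one_le_pow _ _ (by omega)) (le_max_right N₀ ((6 * D) ^ 4))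
    exact_mod_cast this
  have hN₁0 : (0 : ℝ) < (N₁ : ℝ) ^ 2 := by positivity
  refine ⟨min (min c (s / C)) (min (s / 8) (s / (N₁ : ℝ) ^ 2)), by positivity, ?_⟩
  intro N M P hM hMN hP hcard
  set c' : ℝ := min (min c (s / C)) (min (s / 8) (s / (N₁ : ℝ) ^ 2)) with hc'
  have hc'0 : 0 < c' := by positivity
  have hc'1 : c' ≤ c := (min_le_left _ _).trans (min_le_left _ _)
  have hc'2 : c' ≤ s / C := (min_le_left _ _).trans (min_le_right _ _)
  have hc'3 : c' ≤ s / 8 := (min_le_right _ _).trans (min_le_left _ _)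
  have hc'4 : c' ≤ s / (N₁ : ℝ) ^ 2 := (min_le_right _ _).trans (min_le_right _ _)
  have hn : P.card ≤ N * M := by
    rw [← maind_card_box]
    exact Finset.card_le_card hP
  have hN2 : 2 ≤ N := by
    by_contra h
    have hN1 : N ≤ 1 := by omega
    have hM1 : M ≤ 1 := hMN.trans hN1
    have : N * M ≤ 1 * 1 := Nat.mul_le_mul hN1 hM1
    omega
  have hNR : (2 : ℝ) ≤ N := by exact_mod_cast hN2
  have hMR : (1 : ℝ) ≤ M := by exact_mod_cast hM
  have hMNR : (M : ℝ) ≤ N := by exact_mod_cast hMN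
  have hnR : (P.card : ℝ) ≤ (M : ℝ) * N := by
    have : P.card ≤ M * N := by rw [mul_comm]; exact hn
    exact_mod_cast this
  have hn0 : (0 : ℝ) < P.card := by
    have : 0 < P.card := by omega
    exact_mod_cast this
  have hMN0 : (0 : ℝ) < (M : ℝ) * N := by positivity
  set r : ℝ := (P.card : ℝ) / (M * N) with hr
  have hr0 : 0 < r := div_pos hn0 hMN0
  have hr1 : r ≤ 1 := (div_le_one hMN0).2 hnR
  have hre1 : r ^ ε ≤ 1 := Real.rpow_le_one hr0.le hr1 hε.le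
  have hre0 : 0 < r ^ ε := Real.rpow_pos_of_pos hr0 _
  set L : ℝ := Real.sqrt (Real.log N) with hL
  have hsL : s ≤ L := Real.sqrt_le_sqrt (Real.log_le_log (by norm_num) hNR)
  have hL0 : 0 < L := lt_of_lt_of_le hs0 hsL
  have hdc1 : (1 : ℝ) ≤ dcD D P := by exact_mod_cast maind_dc_pos D P hcard
  have hdc0 : (0 : ℝ) < dcD D P := lt_of_lt_of_le one_pos hdc1
  -- reduction to a bound with `s`
  have hred : ∀ X : ℝ, 0 ≤ X → X ≤ s * dcD D P → X / L ≤ dcD D P := by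
    intro X _ hX
    rw [div_le_iff₀ hL0]
    calc X ≤ s * dcD D P := hX
      _ ≤ L * dcD D P := mul_le_mul_of_nonneg_right hsL hdc0.le
      _ = dcD D P * L := by ring
  by_cases ha : N < N₁
  · -- small N
    apply hred _ (by positivity)
    have h1 : (P.card : ℝ) ≤ (N₁ : ℝ) ^ 2 := by
      have hNN : (N : ℝ) ≤ N₁ := by exact_mod_cast ha.le
      calc (P.card : ℝ) ≤ (M : ℝ) * N := hnR
        _ ≤ N₁ * N₁ := mul_le_mul (hMNR.trans hNN) hNN (by positivity) (by positivity)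
        _ = (N₁ : ℝ) ^ 2 := by ring
    calc c' * r ^ ε * P.card ≤ c' * 1 * (N₁ : ℝ) ^ 2 := by gcongr
      _ ≤ s / (N₁ : ℝ) ^ 2 * (N₁ : ℝ) ^ 2 := by rw [mul_one]; gcongr
      _ = s := by field_simp
      _ ≤ s * dcD D P := by nlinarith
  · have hNN₁ : N₁ ≤ N := by omega
    have hNN₀ : N₀ ≤ N := (le_max_left _ _).trans hNN₁
    have hN1296 : (6 * D) ^ 4 ≤ N := (le_max_right _ _).trans hNN₁
    have hNpos : (0 : ℝ) < N := by positivity
    have hN1 : (1 : ℝ) ≤ N := by linarith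
    by_cases hb : (P.card : ℝ) < (M : ℝ) * N * (N : ℝ) ^ (-c₁)
    · apply hred _ (by positivity)
      have h1 : r ≤ (N : ℝ) ^ (-c₁) := by
        rw [hr, div_le_iff₀ hMN0]
        linarith
      have h2 : r ^ ε ≤ (N : ℝ) ^ (-(c₁ * ε)) := by
        have := Real.rpow_le_rpow hr0.le h1 hε.le
        rwa [← Real.rpow_mul hNpos.le, neg_mul] at this
      have h3 := htriv N M P hM hMN hP hcard
      have h4 : (N : ℝ) ^ (-(c₁ * ε)) * (N : ℝ) ^ (c₁ * ε) = 1 := by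
        rw [← Real.rpow_add hNpos]
        simp
      calc c' * r ^ ε * P.card
          ≤ c' * (N : ℝ) ^ (-(c₁ * ε)) * (C * (N : ℝ) ^ (c₁ * ε) * dcD D P) := by gcongr
        _ = c' * C * ((N : ℝ) ^ (-(c₁ * ε)) * (N : ℝ) ^ (c₁ * ε)) * dcD D P := by ring
        _ = c' * C * dcD D P := by rw [h4, mul_one]
        _ ≤ s / C * C * dcD D P := by gcongr
        _ = s * dcD D P := by field_simp
    · push Not at hb
      by_cases hcM : M ^ 4 < N
      · apply hred _ (by positivity)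
        have h1 : (M : ℝ) ^ 2 ≤ (N : ℝ) ^ (1 / 2 : ℝ) := maind_sq_le hcM.le
        have h2 : (6 * D : ℝ) ≤ (N : ℝ) ^ (1 / 4 : ℝ) := maind_rpow_quarter hN1296
        have h3 : (N : ℝ) * (N : ℝ) ^ (-c₁) ≥ (N : ℝ) ^ (3 / 4 : ℝ) := by
          have e : (N : ℝ) * (N : ℝ) ^ (-c₁) = (N : ℝ) ^ (1 + -c₁) := by
            rw [Real.rpow_add hNpos, Real.rpow_one]
          rw [e]
          apply Real.rpow_le_rpow_of_exponent_le hN1
          have : c₁ ≤ 1 / 4 := min_le_right _ _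
          linarith
        have h4 : (N : ℝ) ^ (1 / 2 : ℝ) * (N : ℝ) ^ (1 / 4 : ℝ) = (N : ℝ) ^ (3 / 4 : ℝ) := by
          rw [← Real.rpow_add hNpos]
          norm_num
        have h5 : (6 * D * (M : ℝ) ^ 3) ≤ P.card := by
          calc 6 * D * (M : ℝ) ^ 3 = M * (M ^ 2 * (6 * D)) := by ring
            _ ≤ M * ((N : ℝ) ^ (1 / 2 : ℝ) * (N : ℝ) ^ (1 / 4 : ℝ)) := by gcongr
            _ = M * (N : ℝ) ^ (3 / 4 : ℝ) := by rw [h4]
            _ ≤ M * ((N : ℝ) * (N : ℝ) ^ (-c₁)) := by gcongr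
            _ = (M : ℝ) * N * (N : ℝ) ^ (-c₁) := by ring
            _ ≤ P.card := hb
        have h6 : 6 * D * M ^ 3 ≤ P.card := by exact_mod_cast h5
        have h7 := hTHIN D N M P hD hM hP h6
        have h8 : (P.card : ℝ) ≤ 8 * dcD D P := by exact_mod_cast h7
        calc c' * r ^ ε * P.card ≤ c' * 1 * (8 * dcD D P) := by gcongr
          _ ≤ s / 8 * 1 * (8 * dcD D P) := by gcongr
          _ = s * dcD D P := by ring
      · have hcM' : N ≤ M ^ 4 := by omega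
        have h1 : (M : ℝ) * N * (N : ℝ) ^ (-c₀) ≤ P.card := by
          refine le_trans ?_ hb
          have : (N : ℝ) ^ (-c₀) ≤ (N : ℝ) ^ (-c₁) := by
            apply Real.rpow_le_rpow_of_exponent_le hN1
            have : c₁ ≤ c₀ := min_le_left _ _
            linarith
          gcongr
        have h2 := hreg N M P hNN₀ hMN hcM' hP h1
        refine le_trans ?_ h2
        gcongr

end Pool.Agent.Helper37.DG
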