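import Pool.Agent.Helper37.DG.Stmts2

set_option autoImplicit false

namespace Pool.Agent.Helper37.DG

open Finset
open scoped Classical

lemma thind_sq {D M v1 v2 w1 w2 : ℤ} (hD : 1 ≤ D) (hM : 1 ≤ M) (h2 : D * M ^ 2 ≤ |w1|)
    (h4 : |w2| ≤ M - 1) (h : v1 ^ 2 + D * v2 ^ 2 = w1 ^ 2 + D * w2 ^ 2) :
    |v1| ≤ |w1| := by
  by_contra hlt
  push Not at hlt
  have e1 : v1 ^ 2 = |v1| ^ 2 := (sq_abs v1).symm
  have e2 : w1 ^ 2 = |w1| ^ 2 := (sq_abs w1).symm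
  have e3 : w2 ^ 2 = |w2| ^ 2 := (sq_abs w2).symm
  have h5 : |w1| + 1 ≤ |v1| := hlt
  have h6 : |w2| ^ 2 ≤ (M - 1) ^ 2 := pow_le_pow_left₀ (abs_nonneg _) h4 2
  have h7 : 0 ≤ D * v2 ^ 2 := mul_nonneg (by linarith) (sq_nonneg _)
  have h8 : (|w1| + 1) ^ 2 ≤ |v1| ^ 2 := pow_le_pow_left₀ (by positivity) h5 2
  have h9 : D * w2 ^ 2 ≤ D * (M - 1) ^ 2 := by
    rw [e3]
    exact mul_le_mul_of_nonneg_left h6 (by linarith)
  have h10 : D * (M - 1) ^ 2 ≤ D * M ^ 2 := by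
    apply mul_le_mul_of_nonneg_left _ (by linarith)
    nlinarith
  have h11 : |v1| ^ 2 ≤ |w1| ^ 2 + D * M ^ 2 := by
    rw [← e1, ← e2]
    linarith
  have h12 : 0 ≤ D * M ^ 2 := by positivity
  nlinarith

lemma thind_eq {D M v1 v2 w1 w2 : ℤ} (hD : 1 ≤ D) (hM : 1 ≤ M) (h1 : D * M ^ 2 ≤ |v1|)
    (h2 : D * M ^ 2 ≤ |w1|) (h3 : |v2| ≤ M - 1) (h4 : |w2| ≤ M - 1)
    (h : v1 ^ 2 + D * v2 ^ 2 = w1 ^ 2 + D * w2 ^ 2) :
    (v1 = w1 ∨ v1 = -w1) ∧ (v2 = w2 ∨ v2 = -w2) := by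
  have h5 : |v1| = |w1| :=
    le_antisymm (thind_sq hD hM h2 h4 h) (thind_sq hD hM h1 h3 h.symm)
  have h6 : v1 ^ 2 = w1 ^ 2 := by
    rw [← sq_abs v1, ← sq_abs w1, h5]
  have h7 : v2 ^ 2 = w2 ^ 2 := by
    have h8 : D * v2 ^ 2 = D * w2 ^ 2 := by linarith
    exact mul_left_cancel₀ (by omega) h8
  exact ⟨sq_eq_sq_iff_eq_or_eq_neg.1 h6, sq_eq_sq_iff_eq_or_eq_neg.1 h7⟩

lemma thind_nm {D : ℕ} {v w : ℤ × ℤ} (h : nmD D v = nmD D w) :
    v.1 ^ 2 + (D : ℤ) * v.2 ^ 2 = w.1 ^ 2 + (D : ℤ) * w.2 ^ 2 := by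
  unfold nmD at h
  have h1 : 0 ≤ v.1 ^ 2 + (D : ℤ) * v.2 ^ 2 := by positivity
  have h2 : 0 ≤ w.1 ^ 2 + (D : ℤ) * w.2 ^ 2 := by positivity
  have h3 := Int.natAbs_of_nonneg h1
  have h4 := Int.natAbs_of_nonneg h2
  rw [← h3, ← h4, h]

theorem st_THIND : ST_THIND := by
  intro D N M P hD hM hP hcard
  have hDz : (1 : ℤ) ≤ (D : ℤ) := by exact_mod_cast hD
  have hDM : 1 ≤ D * M ^ 3 := Nat.mul_pos hD (pow_pos hM 3)
  have hcard' : 6 * (D * M ^ 3) ≤ P.card := by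
    rw [← mul_assoc]
    exact hcard
  have hne : P.Nonempty := by
    rw [← Finset.card_pos]
    omega
  obtain ⟨a, ha⟩ := hne
  have hMz : (1 : ℤ) ≤ (M : ℤ) := by exact_mod_cast hM
  set B := P.filter (fun b => (D : ℤ) * (M : ℤ) ^ 2 ≤ |b.1 - a.1|) with hB
  have hbox : ∀ b ∈ P, 0 ≤ b.1 ∧ b.1 < N ∧ 0 ≤ b.2 ∧ b.2 < M := by
    intro b hb
    have := hP hb
    rw [box, Finset.mem_product, Finset.mem_Ico, Finset.mem_Ico] at this
    exact ⟨this.1.1, this.1.2, this.2.1, this.2.2⟩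
  -- the complement of `B`
  have hC : (P.filter (fun b => ¬ (D : ℤ) * (M : ℤ) ^ 2 ≤ |b.1 - a.1|)).card ≤ 2 * (D * M ^ 3) := by
    have hsub : P.filter (fun b => ¬ (D : ℤ) * (M : ℤ) ^ 2 ≤ |b.1 - a.1|) ⊆
        Finset.Icc (a.1 - (D : ℤ) * (M : ℤ) ^ 2 + 1) (a.1 + (D : ℤ) * (M : ℤ) ^ 2 - 1) ×ˢ
          Finset.Ico (0 : ℤ) (M : ℤ) := by
      intro b hb
      rw [Finset.mem_filter] at hb
      obtain ⟨hbP, hb2⟩ := hb
      push Not at hb2
      obtain ⟨-, -, h1, h2⟩ := hbox b hbP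
      rw [Finset.mem_product, Finset.mem_Icc, Finset.mem_Ico]
      rw [abs_lt] at hb2
      exact ⟨⟨by linarith [hb2.1], by linarith [hb2.2]⟩, h1, h2⟩
    refine (Finset.card_le_card hsub).trans ?_
    rw [Finset.card_product, Int.card_Icc, Int.card_Ico]
    have h1 : (a.1 + (D : ℤ) * (M : ℤ) ^ 2 - 1 + 1 -
        (a.1 - (D : ℤ) * (M : ℤ) ^ 2 + 1)).toNat ≤ 2 * (D * M ^ 2) := by
      rw [Int.toNat_le]
      push_cast
      linarith
    have h2 : ((M : ℤ) - 0).toNat = M := by simp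
    rw [h2]
    calc (a.1 + (D : ℤ) * (M : ℤ) ^ 2 - 1 + 1 - (a.1 - (D : ℤ) * (M : ℤ) ^ 2 + 1)).toNat * M
        ≤ 2 * (D * M ^ 2) * M := Nat.mul_le_mul_right _ h1
      _ = 2 * (D * M ^ 3) := by ring
  have hsplit : B.card + (P.filter (fun b => ¬ (D : ℤ) * (M : ℤ) ^ 2 ≤ |b.1 - a.1|)).card = P.card := by
    rw [hB]
    exact Finset.card_filter_add_card_filter_not _
  have hvb : ∀ b ∈ B, (D : ℤ) * (M : ℤ) ^ 2 ≤ |(a - b).1| ∧ |(a - b).2| ≤ (M : ℤ) - 1 := by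
    intro b hb
    rw [hB, Finset.mem_filter] at hb
    obtain ⟨hbP, hb2⟩ := hb
    obtain ⟨-, -, h1, h2⟩ := hbox b hbP
    obtain ⟨-, -, h3, h4⟩ := hbox a ha
    refine ⟨?_, ?_⟩
    · rw [Prod.fst_sub, abs_sub_comm]
      exact hb2
    · rw [Prod.snd_sub, abs_le]
      constructor <;> linarith
  -- fibers
  have hfib : B.card ≤ 4 * (B.image (fun b => nmD D (a - b))).card := by
    apply Finset.card_le_mul_card_image
    intro c hc
    rw [Finset.mem_image] at hc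
    obtain ⟨b0, hb0, rfl⟩ := hc
    have hsub : B.filter (fun b => nmD D (a - b) = nmD D (a - b0)) ⊆
        {a - (a - b0), a - (-(a - b0).1, (a - b0).2), a - ((a - b0).1, -(a - b0).2),
          a - (-(a - b0).1, -(a - b0).2)} := by
      intro b hb
      rw [Finset.mem_filter] at hb
      obtain ⟨hbB, hbe⟩ := hb
      obtain ⟨h1, h2⟩ := hvb b hbB
      obtain ⟨h3, h4⟩ := hvb b0 hb0
      obtain ⟨h5, h6⟩ := thind_eq hDz hMz h1 h3 h2 h4 (thind_nm hbe)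
      have hb' : b = a - (a - b) := by simp
      simp only [Finset.mem_insert, Finset.mem_singleton]
      rw [hb']
      rcases h5 with h5 | h5 <;> rcases h6 with h6 | h6
      · left
        rw [show a - b = a - b0 from Prod.ext h5 h6]
      · right; right; left
        rw [show a - b = ((a - b0).1, -(a - b0).2) from Prod.ext h5 h6]
      · right; left
        rw [show a - b = (-(a - b0).1, (a - b0).2) from Prod.ext h5 h6]
      · right; right; right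
        rw [show a - b = (-(a - b0).1, -(a - b0).2) from Prod.ext h5 h6]
    exact (Finset.card_le_card hsub).trans Finset.card_le_four
  have himg : (B.image (fun b => nmD D (a - b))).card ≤ dcD D P := by
    unfold dcD
    apply Finset.card_le_card
    intro c hc
    rw [Finset.mem_image] at hc
    obtain ⟨b, hb, rfl⟩ := hc
    rw [Finset.mem_image]
    refine ⟨(a, b), ?_, rfl⟩
    rw [Finset.mem_offDiag]
    have hbP : b ∈ P := (Finset.mem_filter.1 hb).1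
    refine ⟨ha, hbP, ?_⟩
    intro (hab : a = b)
    have := (hvb b hb).1
    rw [← hab, sub_self] at this
    simp only [Prod.fst_zero, abs_zero] at this
    nlinarith
  omega

end Pool.Agent.Helper37.DG
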